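import Pool.Agent.GEN.StmtsU

/-!
# Squad GEN, row JCL
-/

set_option autoImplicit false

namespace Pool.Agent.GEN.H58

open MvPolynomial Pool.Agent.Helper6_Mono Pool.Agent.Helper30_Simp Pool.Agent.Helper30_Simp2
  Pool.Agent.GEN

theorem jcl (h : SycStmt) : JclStmt := by
  intro σ A _ F y
  have key : ∀ (l : A), ∃ D : MvPolynomial σ A →ₗ[A] MvPolynomial σ A,
      ∀ (w : MvPolynomial σ A) (p : Sm σ A), act l w (Lop y p) = D (act l w p) := by
    intro l
    rcases y with _ | i | i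
    · exact ⟨LinearMap.mulLeft A (C l), fun w p => (h σ A l w p).1⟩
    · exact ⟨LinearMap.mulLeft A (X i), fun w p => (h σ A l w p).2.1 i⟩
    · exact ⟨(pderiv i).toLinearMap, fun w p => (h σ A l w p).2.2.1 i⟩
  constructor
  · rintro c p ⟨r, n₀, hr⟩
    refine ⟨Lop y r, n₀, fun n hn => ?_⟩
    obtain ⟨D, hD⟩ := key (n : A)
    rw [hD, hD, hr n hn]
  · rintro s₀ p ⟨r, q, n₀, hr⟩
    refine ⟨Lop y r, Lop y q, n₀, fun n hn => ?_⟩
    obtain ⟨D, hD⟩ := key (n : A)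
    rw [hD, hD, hD, hr n hn, map_add, map_smul]

end Pool.Agent.GEN.H58
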