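import Pool.Agent.Helper56_GEN.Asm
import Pool.Agent.GEN.StmtsU
import Pool.Agent.Helper88_GEN.GRB
import Pool.Agent.Helper78_GEN.EXH
import Pool.Agent.Helper77_GEN.SYC
import Pool.Agent.Helper26_GEN.AMP
import Pool.Agent.Helper35_GEN.RMU
import Pool.Agent.Helper41_GEN.SHS
import Pool.Agent.Helper16_GEN.SHJ
import Pool.Agent.Helper31_GEN.POW
import Pool.Agent.Helper41_GEN.VAN
import Pool.Agent.Helper41_GEN.INJ
import Pool.Agent.Helper35_GEN.KER
import Pool.Agent.Helper49_GEN.LSY
import Pool.Agent.Helper62_GEN.SYL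
import Pool.Agent.Helper98_GEN.SEM
import Pool.Agent.Helper67_GEN.RTO
import Pool.Agent.Helper41_GEN.SPO
import Pool.Agent.Helper69_GEN.NPO
import Pool.Agent.Helper45_GEN.GNC
import Pool.Agent.Helper28_GEN.CHV
import Pool.Agent.Helper19_GEN.COV
import Pool.Agent.Helper11_GEN.SBV
import Pool.Agent.Helper7_GEN.ROV
import Pool.Agent.Helper86_GEN.XTV
import Pool.Agent.Helper24_GEN.RVL
import Pool.Agent.Helper99_GEN.ERV
import Pool.Agent.Helper58_GEN.JCL

/-!
# Squad GEN, blocks U and V: assembly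
-/

set_option autoImplicit false

namespace Pool.Agent.GEN.H58

open Pool.Agent.Helper6_Mono Pool.Agent.Helper30_Simp Pool.Agent.Helper30_Simp2 Pool.Agent.GEN

/-- the strong generic statement on the root side -/
theorem rvlStmt (hE : ErvStmt) : RvlStmt :=
  H24.rvl
    (H7.rov (H64.str H75.rat)
      (H19.cov (Helper30_Simp2.H26.alg2 Helper30_Simp.H94.ave Helper30_Simp2.H73.tnum) H32.bda
        (H28.chv hE))
      H11.sbv (H47.gwb H80.gwa))
    H86.xtv

theorem kerStmt : KerStmt :=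
  H35.ker (H35.rmu H77.syc) (H16.shj (H41.shs H77.syc)) H31.pow H41.van H41.inj H26.amp

theorem semStmt (hJ : JclStmt) : SemStmt :=
  H98.sem (H78.exh H88.grb) H77.syc hJ H26.amp (H35.rmu H77.syc) (H49.lsy H77.syc) kerStmt

/-- **Zariski general coefficients are good** -/
theorem gnc_of (hE : ErvStmt) (hJ : JclStmt) : GncStmt :=
  H45.gnc (H67.rto (rvlStmt hE) H62.syl (semStmt hJ)) (H69.npo H41.spo)

/-- **Zariski general coefficients are good** -/
theorem gncStmt : GncStmt := gnc_of H99.erv (jcl H77.syc)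

end Pool.Agent.GEN.H58
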